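import Mathlib
import Pool.Agent.Lib.H43B.Graph

set_option autoImplicit false

/-!
# Largest balanced complete bipartite subgraph in half-dense graphs: `l(n) ≥ log₂ n - 15`

The bound of Kővári, Sós and Turán gives `K(r,r)` in every graph with `n` vertices and `⌊n²/4⌋` edges if `r 2^r < ε n`,
so `l(n) ≥ log₂ n - log₂ log₂ n - O(1)`. Here the factor `r` is removed: `2^r ≤ n / 2^14` suffices, so
`l(n) ≥ log₂ n - 15`. The bipartite version holds for all densities `p ≤ 1/2`.
-/

namespace Pool.Agent.Results.MP_bb1489_co.NoLogLoss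

open Finset

/-- `G` contains `K(l,l)`: there are disjoint sets `X`, `Y` of `l` vertices each, every vertex of `X` adjacent to
every vertex of `Y`. -/
def ContainsK {V : Type} (G : SimpleGraph V) (l : ℕ) : Prop :=
  ∃ X Y : Finset V, X.card = l ∧ Y.card = l ∧ Disjoint X Y ∧ ∀ x ∈ X, ∀ y ∈ Y, G.Adj x y

open Classical in
/-- The number of edges of the bipartite graph `R` between `X` and `Y`. -/
noncomputable def numEdges {α β : Type} (R : α → β → Prop) (X : Finset α) (Y : Finset β) : ℕ :=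
  ((X ×ˢ Y).filter (fun z : α × β => R z.1 z.2)).card

theorem numEdges_eq {α β : Type} (R : α → β → Prop) (X : Finset α) (Y : Finset β) :
    numEdges R X Y = ∑ x ∈ X, H43B.dg R Y x := by
  classical
  unfold numEdges H43B.dg
  rw [Finset.card_filter, Finset.sum_product]
  refine Finset.sum_congr rfl fun x _ => ?_
  rw [Finset.card_filter]

/-- For every `n ≥ 2`, the largest `l` such that every graph with `n` vertices and `⌊n²/4⌋` edges contains `K(l,l)` is
at least `log₂ n - 15`. A bipartite graph of density at least `p ≤ 1/2` with parts of size at least `12288 p^(-l)`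
contains `K_{l,l}`, `l ≥ 2`. -/
theorem result :
    (∀ n : ℕ, 2 ≤ n → ∃ l : ℕ,
      IsGreatest {r : ℕ | ∀ G : SimpleGraph (Fin n), G.edgeSet.ncard = n ^ 2 / 4 → ContainsK G r} l ∧
      Real.logb 2 n - 15 ≤ l) ∧
    (∀ (α β : Type) (R : α → β → Prop) (X : Finset α) (Y : Finset β) (p : ℝ), 0 < p → p ≤ 1 / 2 →
      ∀ l : ℕ, 2 ≤ l → p * (X.card : ℝ) * (Y.card : ℝ) ≤ (numEdges R X Y : ℝ) →
      12288 * (1 / p) ^ l ≤ (X.card : ℝ) → 12288 * (1 / p) ^ l ≤ (Y.card : ℝ) →
      ∃ A ⊆ X, ∃ B ⊆ Y, A.card = l ∧ B.card = l ∧ ∀ a ∈ A, ∀ b ∈ B, R a b) := by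
  refine ⟨fun n hn => H43B.main n hn, ?_⟩
  intro α β R X Y p hp hp2 l hl hd hX hY
  have hpl : 0 < p ^ l := pow_pos hp l
  have h : ∀ z : ℝ, 12288 * (1 / p) ^ l ≤ z → 12288 ≤ z * p ^ l := by
    intro z hz
    rw [one_div, inv_pow, ← div_eq_mul_inv, div_le_iff₀ hpl] at hz
    exact hz
  rw [numEdges_eq, Nat.cast_sum] at hd
  exact H43B.bip R X Y p hp hp2 l hl hd (h _ hX) (h _ hY)

end Pool.Agent.Results.MP_bb1489_co.NoLogLoss
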